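import Mathlib
import Pool.Agent.H697w.Final

set_option autoImplicit false

open Pool.Agent.H697w

/-- There is a field `K` of characteristic different from `2` with `w(K) > 3`. Explicitly, over
`K2 = ℚ(x₁)(z₁)(x₂)(z₂)` the form `⟨x₂(z₂²+1), 1, (x₂+1) b₁, (x₂+1) b₂⟩` with
`b₁ = -3 (x₁+1) x₁ (z₁²+1)`, `b₂ = -3 (x₁+1)` is minimal weakly isotropic (of dimension `4`). -/
theorem Pool.Agent.Results.MP_2416ca_nt.WInvariantFour.result :
    (∃ (K : Type) (_ : Field K), (2 : K) ≠ 0 ∧ 3 < wInv K) ∧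
      MinimalWeaklyIsotropic (QuadraticMap.weightedSumSquares K2 a4) ∧ 4 ≤ wInv K2 := by
  have h4 : ((4 : ℕ) : ℕ∞) ≤ wInv K2 := le_wInv _ a4_minimal
  refine ⟨⟨K2, inferInstance, two_ne_zero, lt_of_lt_of_le ?_ h4⟩, a4_minimal, h4⟩
  exact_mod_cast (by norm_num : (3 : ℕ) < 4)
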